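import Mathlib
import Pool.Agent.Helper4.Main2

set_option autoImplicit false
open scoped Pointwise

namespace Pool.Agent.Results.MP_9bde79_co.QuadHalf

/-- `HasCoset n α d`: for every set `A` of density at least `α` in `F_2^n`, the sumset `A + A`
contains a coset `x + V` of a linear subspace `V` of dimension `d`. -/
def HasCoset (n : ℕ) (α : ℝ) (d : ℕ) : Prop :=
  ∀ A : Finset (Fin n → ZMod 2), α * 2 ^ n ≤ (A.card : ℝ) →
    ∃ (x : Fin n → ZMod 2) (V : Submodule (ZMod 2) (Fin n → ZMod 2)),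
      Module.finrank (ZMod 2) V = d ∧ ∀ v ∈ V, x + v ∈ A + A

lemma exists_sub_finrank {n : ℕ} (V : Submodule (ZMod 2) (Fin n → ZMod 2)) (d : ℕ)
    (h : d ≤ Module.finrank (ZMod 2) V) :
    ∃ W : Submodule (ZMod 2) (Fin n → ZMod 2), W ≤ V ∧ Module.finrank (ZMod 2) W = d := by
  obtain ⟨f, hf⟩ := exists_linearIndependent_of_le_finrank (R := ZMod 2) (M := V) h
  refine ⟨(Submodule.span (ZMod 2) (Set.range f)).map V.subtype, ?_, ?_⟩
  · rintro _ ⟨y, _, rfl⟩
    exact y.2
  · rw [Submodule.finrank_map_subtype_eq, finrank_span_eq_card hf, Fintype.card_fin]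

/-- For density `α ∈ (0, 1/2)` the guaranteed coset codimension `m(α, n)` is at most
`200 (1/2 - α)² n + 1`. -/
theorem result :
    ∀ (n : ℕ) (α : ℝ), 1 ≤ n → 0 < α → α < 1 / 2 →
      ∃ d : ℕ, HasCoset n α d ∧ (n : ℝ) - d ≤ 200 * (1 / 2 - α) ^ 2 * n + 1 := by
  intro n α hn hα hα2
  set k : ℕ := min (⌊200 * (1 / 2 - α) ^ 2 * n⌋₊ + 1) n with hk
  have hkn : k ≤ n := min_le_right _ _
  refine ⟨n - k, ?_, ?_⟩
  · intro A hcard
    have hA : A.Nonempty := by
      rw [Finset.nonempty_iff_ne_empty]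
      intro h
      rw [h] at hcard
      have : 0 < α * 2 ^ n := by positivity
      simp at hcard
      linarith
    obtain ⟨V, hV, hV2⟩ : ∃ V : Submodule (ZMod 2) (Fin n → ZMod 2),
        n ≤ Module.finrank (ZMod 2) V + k ∧ ∀ v ∈ V, v ∈ A + A := by
      rcases le_total (⌊200 * (1 / 2 - α) ^ 2 * n⌋₊ + 1) n with h | h
      · rw [min_eq_left h] at hk
        rw [hk]
        exact Pool.Agent.Helper4.subspace_in_sumset2 A hA (1/2 - α) (by linarith)
          (by have : (1/2 - (1/2 - α)) = α := by ring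
              rw [this]; exact hcard)
          (⌊200 * (1 / 2 - α) ^ 2 * n⌋₊ + 1) (by
            push_cast
            exact Nat.lt_floor_add_one (200 * (1 / 2 - α) ^ 2 * n))
      · rw [min_eq_right h] at hk
        refine ⟨⊥, by omega, ?_⟩
        intro v hv
        rw [Submodule.mem_bot] at hv
        subst hv
        obtain ⟨a, ha⟩ := hA
        rw [← Pool.Agent.Helper4.dd a]
        exact Finset.add_mem_add ha ha
    obtain ⟨W, hWV, hW⟩ := exists_sub_finrank V (n - k) (by omega)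
    refine ⟨0, W, hW, ?_⟩
    intro v hv
    rw [zero_add]
    exact hV2 v (hWV hv)
  · rw [Nat.cast_sub hkn]
    have h1 : (k:ℝ) ≤ ⌊200 * (1 / 2 - α) ^ 2 * n⌋₊ + 1 := by
      have : k ≤ ⌊200 * (1 / 2 - α) ^ 2 * n⌋₊ + 1 := min_le_left _ _
      exact_mod_cast this
    have h2 : (⌊200 * (1 / 2 - α) ^ 2 * (n:ℝ)⌋₊ : ℝ) ≤ 200 * (1 / 2 - α) ^ 2 * n :=
      Nat.floor_le (by positivity)
    linarith

end Pool.Agent.Results.MP_9bde79_co.QuadHalf
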